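import Pool.Agent.helper23.F2.Spec

set_option autoImplicit false

namespace Pool.Agent.F2

open Pool.Agent.helper23.TH

theorem CL7 : CL7_stmt := by
  classical
  intro X Y _ S en B β hβ hS hB hc
  obtain ⟨x0, hx0⟩ := hS
  have hY : (0 : ℝ) < Fintype.card Y := by
    have h : 0 < Fintype.card Y := Fintype.card_pos_iff.2 ⟨en x0⟩
    exact_mod_cast h
  have hSpos : (0 : ℝ) < S.card := by
    have h : 0 < S.card := Finset.card_pos.2 ⟨x0, hx0⟩
    exact_mod_cast h
  have e1 : ∑ y : Y, ((S.filter fun x => en x = y).card : ℝ) = S.card := by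
    rw [← Nat.cast_sum]
    congr 1
    exact (Finset.card_eq_sum_card_fiberwise (f := en) (s := S) (t := Finset.univ)
      fun x _ => Finset.mem_coe.2 (Finset.mem_univ _)).symm
  have e2 : ∑ y : Y, ((((S ×ˢ S).filter fun p => B p.1 p.2).filter fun p => en p.1 = y).card : ℝ) =
      ((S ×ˢ S).filter fun p => B p.1 p.2).card := by
    rw [← Nat.cast_sum]
    congr 1
    exact (Finset.card_eq_sum_card_fiberwise (f := fun p : X × X => en p.1)
      (s := (S ×ˢ S).filter fun p => B p.1 p.2) (t := Finset.univ)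
      fun x _ => Finset.mem_coe.2 (Finset.mem_univ _)).symm
  obtain ⟨y, hy⟩ : ∃ y : Y, 0 < ((S.filter fun x => en x = y).card : ℝ) - S.card / (2 * Fintype.card Y) -
      ((((S ×ˢ S).filter fun p => B p.1 p.2).filter fun p => en p.1 = y).card : ℝ) / (4 * β) := by
    by_contra hn
    push Not at hn
    have h1 : ∑ y : Y, (((S.filter fun x => en x = y).card : ℝ) - S.card / (2 * Fintype.card Y) -
      ((((S ×ˢ S).filter fun p => B p.1 p.2).filter fun p => en p.1 = y).card : ℝ) / (4 * β)) ≤ 0 :=
      Finset.sum_nonpos fun y _ => hn y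
    have e3 : ∑ y : Y, ((((S ×ˢ S).filter fun p => B p.1 p.2).filter fun p => en p.1 = y).card : ℝ) / (4 * β) =
        (((S ×ˢ S).filter fun p => B p.1 p.2).card : ℝ) / (4 * β) := by
      rw [← Finset.sum_div, e2]
    have e4 : ∑ _y : Y, (S.card : ℝ) / (2 * Fintype.card Y) = S.card / 2 := by
      rw [Finset.sum_const, Finset.card_univ, nsmul_eq_mul]
      field_simp
    rw [Finset.sum_sub_distrib, Finset.sum_sub_distrib, e1, e3, e4] at h1
    have h3 : (((S ×ˢ S).filter fun p => B p.1 p.2).card : ℝ) / (4 * β) ≤ S.card / 4 := by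
      rw [div_le_div_iff₀ (by positivity) (by norm_num)]
      nlinarith
    linarith
  set Sy := S.filter fun x => en x = y with hSy
  set By := ((S ×ˢ S).filter fun p => B p.1 p.2).filter fun p => en p.1 = y with hBy
  have hBn : (0 : ℝ) ≤ (By.card : ℝ) / (4 * β) := by positivity
  have hSn : (0 : ℝ) ≤ (S.card : ℝ) / (2 * Fintype.card Y) := by positivity
  have f1 : (S.card : ℝ) / (2 * Fintype.card Y) ≤ Sy.card := by linarith
  have f2 : (By.card : ℝ) ≤ 4 * β * Sy.card := by
    have h : (By.card : ℝ) / (4 * β) ≤ Sy.card := by linarith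
    rw [div_le_iff₀ (by positivity)] at h
    linarith
  have f3 : ∑ x ∈ Sy, ((Sy.filter fun x' => B x x').card : ℝ) ≤ By.card := by
    have h1 : ((Sy ×ˢ Sy).filter fun p => B p.1 p.2).card = ∑ x ∈ Sy, (Sy.filter fun x' => B x x').card := by
      rw [Finset.card_filter, Finset.sum_product]
      exact Finset.sum_congr rfl fun x _ => by rw [Finset.card_filter]
    rw [← Nat.cast_sum, ← h1]
    have h2 : ((Sy ×ˢ Sy).filter fun p => B p.1 p.2) ⊆ By := by
      intro p hp
      rw [Finset.mem_filter, Finset.mem_product] at hp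
      have hp1 := Finset.mem_filter.1 hp.1.1
      have hp2 := Finset.mem_filter.1 hp.1.2
      rw [hBy, Finset.mem_filter, Finset.mem_filter, Finset.mem_product]
      exact ⟨⟨⟨hp1.1, hp2.1⟩, hp.2⟩, hp1.2⟩
    exact_mod_cast Finset.card_le_card h2
  set T := Sy.filter fun x => 8 * β < ((Sy.filter fun x' => B x x').card : ℝ) with hT
  have f4 : (T.card : ℝ) * (8 * β) ≤ By.card := by
    refine le_trans ?_ f3
    rw [← nsmul_eq_mul, ← Finset.sum_const]
    refine le_trans (Finset.sum_le_sum fun x hx => (Finset.mem_filter.1 hx).2.le) ?_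
    exact Finset.sum_le_sum_of_subset_of_nonneg (Finset.filter_subset _ _) fun x _ _ => Nat.cast_nonneg _
  have f5 : (T.card : ℝ) ≤ Sy.card / 2 := by
    have h : (T.card : ℝ) * (8 * β) ≤ Sy.card / 2 * (8 * β) := by linarith
    exact le_of_mul_le_mul_right h (by positivity)
  have f6 : ((Sy \ T).card : ℝ) = Sy.card - T.card := by
    rw [Finset.card_sdiff_of_subset (Finset.filter_subset _ _), Nat.cast_sub (Finset.card_le_card (Finset.filter_subset _ _))]
  refine ⟨y, Sy \ T, ?_, ?_, ?_, ?_⟩
  · exact Finset.sdiff_subset.trans (Finset.filter_subset _ _)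
  · intro x hx
    exact (Finset.mem_filter.1 (Finset.mem_sdiff.1 hx).1).2
  · have h1 : (S.card : ℝ) ≤ 4 * Fintype.card Y * (Sy \ T).card := by
      rw [f6]
      rw [div_le_iff₀ (by positivity)] at f1
      nlinarith
    exact_mod_cast h1
  · intro x hx
    have hx1 := (Finset.mem_sdiff.1 hx).1
    have hx2 : ¬ 8 * β < ((Sy.filter fun x' => B x x').card : ℝ) := fun h =>
      (Finset.mem_sdiff.1 hx).2 (Finset.mem_filter.2 ⟨hx1, h⟩)
    rw [not_lt] at hx2
    refine le_trans ?_ hx2
    exact_mod_cast Finset.card_le_card (Finset.filter_subset_filter _ Finset.sdiff_subset)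

end Pool.Agent.F2
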